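import Pool.Agent.W717.UR.Stm

set_option autoImplicit false

namespace Pool.Agent.W177.UR

open Pool.Agent.W717.UR

/-- the spaced part of the block of level `K + 1` -/
theorem bb_spaced {G N : ℕ → ℕ} {e : ℕ → ℕ → ℤ} (_hP : Par G N e) (K : ℕ) (c : ℕ) (hc : c < G K)
    (i : ℤ) (h0 : 0 ≤ i) (h1 : i < (hh G N K : ℤ) + 1) :
    bb G N e (K + 1) ((c : ℤ) * ((hh G N K : ℤ) + 1) + i) = bb G N e K i := by
  have h2 : (0 : ℤ) ≤ (c : ℤ) * ((hh G N K : ℤ) + 1) + i := by positivity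
  have h3 : (c : ℤ) * ((hh G N K : ℤ) + 1) + i < ((G K * (hh G N K + 1) : ℕ) : ℤ) := by
    push_cast
    have h4 : (c : ℤ) + 1 ≤ (G K : ℤ) := by exact_mod_cast hc
    have h5 : (0 : ℤ) ≤ (hh G N K : ℤ) + 1 := by positivity
    nlinarith [mul_le_mul_of_nonneg_right h4 h5]
  rw [bb, if_pos ⟨h2, h3⟩]
  congr 1
  push_cast
  rw [mul_comm, Int.mul_add_emod_self_left]
  exact Int.emod_eq_of_lt h0 h1

theorem BPY_base (h1 : S_BASIC) (h2 : S_YB) {G N : ℕ → ℕ} {e : ℕ → ℕ → ℤ} (hP : Par G N e)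
    (K : ℕ) (n : ℤ) (hK : |n| < (K : ℤ)) : BP (hh G N) (bb G N e) (YY G N e) K n := by
  obtain ⟨b1, -, b3⟩ := h1 G N e hP
  have hb := b1 K
  have hlt := abs_lt.mp hK
  have hG : 3 ≤ G K := by have := hP.hG K; omega
  have haa : (aa G N (K + 1) : ℤ) = aa G N K + hh G N K + 1 := by
    rw [aa]; push_cast; ring
  have hhh : (hh G N (K + 1) : ℤ) = G K * (hh G N K + 1) + N K * hh G N K := by
    rw [hh]; push_cast; ring
  have hhp : (0 : ℤ) ≤ (hh G N K : ℤ) := by positivity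
  have hNh : (0 : ℤ) ≤ (N K : ℤ) * (hh G N K : ℤ) := by positivity
  have hG' : (3 : ℤ) ≤ (G K : ℤ) := by exact_mod_cast hG
  have hGh : (3 : ℤ) * ((hh G N K : ℤ) + 1) ≤ (G K : ℤ) * ((hh G N K : ℤ) + 1) :=
    mul_le_mul_of_nonneg_right hG' (by linarith)
  refine ⟨-(aa G N K : ℤ), -(aa G N K : ℤ) + hh G N K + 1, 1, 1, ?_, ?_, Or.inr ⟨by ring, ?_⟩,
    Or.inl rfl, Or.inl rfl, ?_, ?_⟩
  · have : (K : ℤ) ≤ aa G N K := by exact_mod_cast hb.1
    linarith [hlt.1]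
  · have : (aa G N K : ℤ) + K < hh G N K := by exact_mod_cast hb.2.1
    linarith [hlt.2]
  · have e1 := h2 G N e hP (K + 1) ((1 : ℕ) * ((hh G N K : ℤ) + 1) + (hh G N K : ℤ))
      (by positivity) (by rw [hhh]; push_cast; linarith)
    rw [bb_spaced hP K 1 (by omega) (hh G N K : ℤ) hhp (by linarith), haa] at e1
    rw [show -(aa G N K : ℤ) + (hh G N K : ℤ) =
      ((1 : ℕ) : ℤ) * ((hh G N K : ℤ) + 1) + (hh G N K : ℤ) - (aa G N K + hh G N K + 1) by
        push_cast; ring, e1]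
    exact b3 K _ (Or.inr le_rfl)
  · intro i hi0 hi1
    have e1 := h2 G N e hP K i hi0 hi1
    rw [one_mul, ← e1]
    congr 1
    ring
  · intro i hi0 hi1
    have e1 := h2 G N e hP (K + 1) ((2 : ℕ) * ((hh G N K : ℤ) + 1) + i)
      (by positivity) (by rw [hhh]; push_cast; linarith)
    rw [bb_spaced hP K 2 (by omega) i hi0 (by linarith), haa] at e1
    rw [one_mul, ← e1]
    congr 1
    push_cast
    ring

theorem BPY (h1 : S_BASIC) (h2 : S_YB) (h3 : S_DESC) : S_BPY := by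
  intro G N e hP k n
  have key : ∀ j : ℕ, BP (hh G N) (bb G N e) (YY G N e) (k + j) n →
      BP (hh G N) (bb G N e) (YY G N e) k n := by
    intro j
    induction j with
    | zero => exact id
    | succ j ih =>
      intro h
      exact ih (h3 G N e hP _ (k + j) n h)
  refine key (n.natAbs + 1) (BPY_base h1 h2 hP _ n ?_)
  push_cast
  rw [Int.abs_eq_natAbs]
  omega

end Pool.Agent.W177.UR
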